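import Pool.Agent.H85.LK.All

set_option autoImplicit false

open MeasureTheory

namespace Pool.Agent.Results.MP_8f7db2_an.ConnectedMinimizers

/-- The `n`-th Dirichlet eigenvalue of `Ω`, by min-max over `n`-dimensional spaces of smooth
functions with compact support in `Ω` (the expression of the frozen statement). -/
noncomputable def lam (N n : ℕ) (Ω : Set (EuclideanSpace ℝ (Fin N))) : ℝ :=
  sInf {c : ℝ | ∃ V : Submodule ℝ (EuclideanSpace ℝ (Fin N) → ℝ),
    Module.finrank ℝ V = n ∧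
    ∀ v ∈ V, ContDiff ℝ (⊤ : ℕ∞) v ∧ HasCompactSupport v ∧
      tsupport v ⊆ Ω ∧
      ∫ x, ‖fderiv ℝ v x‖ ^ 2 ≤ c * ∫ x, v x ^ 2}

/-- For `n` large and `N ≥ n - 1`, in particular for the `(N+1)`-st eigenvalue in all high
dimensions `N`, every open minimizer at fixed volume is connected. -/
theorem result : ∃ n₀ : ℕ, ∀ (N n : ℕ) (r : ℝ) (Ω : Set (EuclideanSpace ℝ (Fin N))),
    n₀ ≤ n → n ≤ N + 1 → 0 < r → IsOpen Ω →
    volume Ω = volume (Metric.ball (0 : EuclideanSpace ℝ (Fin N)) r) →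
    (∀ Ω' : Set (EuclideanSpace ℝ (Fin N)), IsOpen Ω' →
      volume Ω' = volume (Metric.ball (0 : EuclideanSpace ℝ (Fin N)) r) →
      lam N n Ω ≤ lam N n Ω') →
    IsConnected Ω :=
  Pool.Agent.H85.LK.all_of.2.2.2

end Pool.Agent.Results.MP_8f7db2_an.ConnectedMinimizers
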