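import Pool.Agent.H69.LNN.Stab

set_option autoImplicit false

open MeasureTheory Metric

namespace Pool.Agent.Results.MP_8f7db2_an.LargeDimensions

/-- The `n`-th Dirichlet eigenvalue of `Ω`, by min-max over `n`-dimensional spaces of smooth
functions with compact support in `Ω` (the expression of the frozen statement). -/
noncomputable def lam (N n : ℕ) (Ω : Set (EuclideanSpace ℝ (Fin N))) : ℝ :=
  sInf {c : ℝ | ∃ V : Submodule ℝ (EuclideanSpace ℝ (Fin N) → ℝ),
    Module.finrank ℝ V = n ∧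
    ∀ v ∈ V, ContDiff ℝ (⊤ : ℕ∞) v ∧ HasCompactSupport v ∧
      tsupport v ⊆ Ω ∧
      ∫ x, ‖fderiv ℝ v x‖ ^ 2 ≤ c * ∫ x, v x ^ 2}

/-- In all sufficiently large dimensions `N` the ball minimises the `(N+1)`-st Dirichlet eigenvalue
among all open sets of the same volume; it is, up to null sets and translations, the only
minimiser, and the inequality holds with the squared asymmetry as remainder. -/
theorem result : ∃ (c : ℝ) (N₀ : ℕ), 0 < c ∧
    ∀ (N : ℕ) (r : ℝ) (Ω : Set (EuclideanSpace ℝ (Fin N))), N₀ ≤ N →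
    0 < r → IsOpen Ω → volume Ω = volume (ball (0 : EuclideanSpace ℝ (Fin N)) r) →
    lam N (N + 1) (ball (0 : EuclideanSpace ℝ (Fin N)) r) ≤ lam N (N + 1) Ω ∧
    (lam N (N + 1) Ω = lam N (N + 1) (ball (0 : EuclideanSpace ℝ (Fin N)) r) →
      ∃ o : EuclideanSpace ℝ (Fin N), volume (symmDiff Ω (ball o r)) = 0) ∧
    ∃ o : EuclideanSpace ℝ (Fin N), lam N (N + 1) (ball (0 : EuclideanSpace ℝ (Fin N)) r) *
      (1 + c / N * (volume.real (symmDiff Ω (ball o r)) /
        volume.real (ball (0 : EuclideanSpace ℝ (Fin N)) r)) ^ 2) ≤ lam N (N + 1) Ω :=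
  Pool.Agent.H69.LNN.stab

end Pool.Agent.Results.MP_8f7db2_an.LargeDimensions
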