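import Pool.Agent.H69.LQ.All1

set_option autoImplicit false

open MeasureTheory Metric

namespace Pool.Agent.Results.MP_8f7db2_an.LocalMinimality

/-- The `n`-th Dirichlet eigenvalue of `Ω`, by min-max over `n`-dimensional spaces of smooth
functions with compact support in `Ω` (the expression of the frozen statement). -/
noncomputable def lam (N n : ℕ) (Ω : Set (EuclideanSpace ℝ (Fin N))) : ℝ :=
  sInf {c : ℝ | ∃ V : Submodule ℝ (EuclideanSpace ℝ (Fin N) → ℝ),
    Module.finrank ℝ V = n ∧
    ∀ v ∈ V, ContDiff ℝ (⊤ : ℕ∞) v ∧ HasCompactSupport v ∧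
      tsupport v ⊆ Ω ∧
      ∫ x, ‖fderiv ℝ v x‖ ^ 2 ≤ c * ∫ x, v x ^ 2}

/-- In every dimension `N ≥ 2` the ball of radius `r` minimises the `(N+1)`-st Dirichlet eigenvalue
among all open sets of the same volume whose symmetric difference with some ball of radius `r` has
volume at most `κ` times the volume of the ball. The remainder is quadratic in the volume of the
symmetric difference with a suitable ball `ball o r`, and linear in the volume of the part of this
symmetric difference whose distance from the sphere of centre `o` and radius `r` is at least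
`ε r`. -/
theorem result (N : ℕ) (ε : ℝ) (hN : 2 ≤ N) (hε : 0 < ε) :
    ∃ κ c : ℝ, 0 < κ ∧ 0 < c ∧
      ∀ (r : ℝ) (z : EuclideanSpace ℝ (Fin N)) (Ω : Set (EuclideanSpace ℝ (Fin N))), 0 < r →
        IsOpen Ω → volume Ω = volume (ball (0 : EuclideanSpace ℝ (Fin N)) r) →
        volume.real (symmDiff Ω (ball z r)) ≤
          κ * volume.real (ball (0 : EuclideanSpace ℝ (Fin N)) r) →
        ∃ o : EuclideanSpace ℝ (Fin N),
          lam N (N + 1) (ball (0 : EuclideanSpace ℝ (Fin N)) r) *
            (1 + c * (volume.real (symmDiff Ω (ball o r)) /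
                volume.real (ball (0 : EuclideanSpace ℝ (Fin N)) r)) ^ 2 +
              c * (volume.real (symmDiff Ω (ball o r) ∩ {x | ε * r ≤ |‖x - o‖ - r|}) /
                volume.real (ball (0 : EuclideanSpace ℝ (Fin N)) r))) ≤
            lam N (N + 1) Ω :=
  Pool.Agent.H69.LQ.all1_of N ε hN hε

end Pool.Agent.Results.MP_8f7db2_an.LocalMinimality
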