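import Pool.Agent.H92.RK.All

set_option autoImplicit false

open MeasureTheory

namespace Pool.Agent.Results.MP_8f7db2_an.RotationalSymmetry

/-- The `n`-th Dirichlet eigenvalue of `Ω`, by min-max over `n`-dimensional spaces of smooth
functions with compact support in `Ω` (the expression of the frozen statement). -/
noncomputable def lam (N n : ℕ) (Ω : Set (EuclideanSpace ℝ (Fin N))) : ℝ :=
  sInf {c : ℝ | ∃ V : Submodule ℝ (EuclideanSpace ℝ (Fin N) → ℝ),
    Module.finrank ℝ V = n ∧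
    ∀ v ∈ V, ContDiff ℝ (⊤ : ℕ∞) v ∧ HasCompactSupport v ∧
      tsupport v ⊆ Ω ∧
      ∫ x, ‖fderiv ℝ v x‖ ^ 2 ≤ c * ∫ x, v x ^ 2}

/-- Let `k ≥ 6`. Among all open sets of the plane with given finite area which are invariant under
the rotation by `2 π / k` about some point `p`, the disk minimizes the third Dirichlet
eigenvalue. -/
theorem result : ∀ (k : ℕ) (r : ℝ) (p : EuclideanSpace ℝ (Fin 2))
    (Ω : Set (EuclideanSpace ℝ (Fin 2))),
    6 ≤ k → 0 < r → IsOpen Ω →
    (∀ x ∈ Ω, p + !₂[Real.cos (2 * Real.pi / k) * (x 0 - p 0) -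
          Real.sin (2 * Real.pi / k) * (x 1 - p 1),
        Real.sin (2 * Real.pi / k) * (x 0 - p 0) +
          Real.cos (2 * Real.pi / k) * (x 1 - p 1)] ∈ Ω) →
    volume Ω = volume (Metric.ball (0 : EuclideanSpace ℝ (Fin 2)) r) →
    lam 2 3 (Metric.ball (0 : EuclideanSpace ℝ (Fin 2)) r) ≤ lam 2 3 Ω :=
  fun k r p Ω hk hr hO hinv hvol => Pool.Agent.H92.RK.all_of k r p Ω hk hr hO hinv hvol

end Pool.Agent.Results.MP_8f7db2_an.RotationalSymmetry
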